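import Pool.Agent.Mg.F5cfbf6.Ga601d8
import Pool.Agent.Mg.F5cfbf6.G48ad15

set_option autoImplicit false

namespace Pool.Agent.Results.MP_5cfbf6_gt.BoundedFaces

open Pool.Agent.MP_5cfbf6_gt

theorem result (P : Set E3) (hP : IsPolytope P) (hs : IsSimple P)
    (hb : ∃ Q : Set E3, SameType P Q ∧ IsBest Q) :
    ∀ F ∈ twoFaces P, (F ∩ P.extremePoints ℝ).encard ≤ 139 := by
  intro F hF
  obtain ⟨Q, e, hQ⟩ := hb
  obtain ⟨G, hG, eG⟩ := e.face hP hQ.1 hF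
  obtain ⟨ι, _, _, u, h, Tr, S, hu, rfl⟩ := exists_sys hQ.1 (e.simple hP hQ.1 hs)
  obtain ⟨S1, O1⟩ := S.lindelof (S.opt_of_best hQ) hu
  rw [S.twoFaces_eq] at hG
  obtain ⟨i, rfl⟩ := hG
  rw [← eG]
  refine (S.encard_face i).trans ?_
  exact_mod_cast S1.card_adj O1 hu i

end Pool.Agent.Results.MP_5cfbf6_gt.BoundedFaces
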