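import Pool.Agent.MP_5cfbf6_gt.P8.FinU

set_option autoImplicit false

namespace Pool.Agent.Results.MP_5cfbf6_gt.Goldberg

open Pool.Agent.MP_5cfbf6_gt

/-- The vertices (triples of faces) of Goldberg's polyhedron with `n` faces. -/
def goldberg : (n : ℕ) → Finset (Finset (Fin n))
  | 8 => gold8
  | 9 => gold9
  | 10 => gold10
  | 11 => gold11
  | _ => ∅

/-- For `n = 8, 9, 10, 11` the type of Goldberg's `n`-hedron has a best representative; it
maximises `V ^ 2 / S ^ 3` among all polytopes with at most `n` faces, and every maximiser has this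
type. -/
theorem result : ∀ n : ℕ, 8 ≤ n → n ≤ 11 → ∃ Q : Set E3, HasType (goldberg n) Q ∧ IsBest Q ∧
    ∀ R : Set E3, IsPolytope R → (twoFaces R).ncard ≤ n →
      isoQuot R ≤ isoQuot Q ∧ (isoQuot R = isoQuot Q → HasType (goldberg n) R) := by
  intro n h1 h2
  interval_cases n
  exacts [P8.uniq8, P8.uniq9, P8.uniq10, P8.uniq11]

end Pool.Agent.Results.MP_5cfbf6_gt.Goldberg
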