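import Pool.Agent.MP_5cfbf6_gt.P7.All
import Pool.Agent.MP_5cfbf6_gt.P7.BipB

set_option autoImplicit false

namespace Pool.Agent.Results.MP_5cfbf6_gt.Heptahedron

open Pool.Agent.MP_5cfbf6_gt

/-- The regular pentagonal prism circumscribed about a ball is a best representative of its type;
it has seven faces and maximises `V ^ 2 / S ^ 3` among all polytopes with at most seven faces. -/
theorem result : IsBest prism5 ∧ (twoFaces prism5).ncard = 7 ∧
    ∀ R : Set E3, IsPolytope R → (twoFaces R).ncard ≤ 7 → isoQuot R ≤ isoQuot prism5 :=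
  ⟨(P7.all_st P7.bip_st').1, P7.prism_faces, (P7.all_st P7.bip_st').2⟩

end Pool.Agent.Results.MP_5cfbf6_gt.Heptahedron
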