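import Pool.Agent.Mg.F5cfbf6.Gc37c8d
import Pool.Agent.Mg.F5cfbf6.G735941

set_option autoImplicit false

namespace Pool.Agent.Results.MP_5cfbf6_gt.NoTriangles

open Pool.Agent.MP_5cfbf6_gt

theorem result : ∃ N : ℕ, ∀ P : Set E3, IsPolytope P → IsSimple P →
    (∃ Q : Set E3, SameType P Q ∧ IsBest Q) →
    (∃ F ∈ twoFaces P, (F ∩ P.extremePoints ℝ).encard = 3) → (twoFaces P).encard ≤ N := by
  obtain ⟨N, hN⟩ := tri_card
  refine ⟨N, fun P hP hs hb ⟨F, hF, h3⟩ => ?_⟩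
  obtain ⟨ι, _, _, u, Tr, C, φ, hφ⟩ := exists_crit hP hs hb
  have h1 := hN ι u Tr C ⟨φ ⟨F, hF⟩, by
    have := hφ ⟨F, hF⟩
    rw [h3] at this
    exact_mod_cast this.symm⟩
  have h2 : (twoFaces P).encard = (Fintype.card ι : ℕ∞) := by
    rw [Set.encard, ENat.card_congr φ.toEquiv, ENat.card_eq_coe_fintype_card]
  rw [h2]
  exact_mod_cast h1

end Pool.Agent.Results.MP_5cfbf6_gt.NoTriangles
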